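import Mathlib

namespace US24

open Matrix

theorem det_bd {I : Type} [Fintype I] [DecidableEq I] (f : AbsoluteValue ℤ ℝ)
    (M : Matrix I I ℤ) (b : I → ℝ) (hb : ∀ k, 0 ≤ b k) (i j0 : I)
    (hM : ∀ k j, j ≠ j0 → f (M k j) ≤ b k) :
    f (M.adjugate j0 i) ≤ (Fintype.card I).factorial * ∏ k ∈ Finset.univ.erase i, b k := by
  rw [Matrix.adjugate_apply, Matrix.det_apply']
  set g : I → ℝ := fun k => if k = i then 1 else b k with hg
  have hg0 : ∀ k, 0 ≤ g k := by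
    intro k; simp only [hg]; split_ifs
    · exact zero_le_one
    · exact hb k
  have hprod : ∏ k, g k = ∏ k ∈ Finset.univ.erase i, b k := by
    rw [← Finset.mul_prod_erase Finset.univ g (Finset.mem_univ i)]
    have h1 : g i = 1 := by simp [hg]
    rw [h1, one_mul]
    refine Finset.prod_congr rfl fun k hk => ?_
    simp [hg, Finset.ne_of_mem_erase hk]
  have hterm : ∀ s : Equiv.Perm I,
      f (((Equiv.Perm.sign s : ℤˣ) : ℤ) * ∏ k, (M.updateRow i (Pi.single j0 1)) (s k) k) ≤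
        ∏ k, g k := by
    intro s
    have hs : f ((Equiv.Perm.sign s : ℤˣ) : ℤ) = 1 := by
      rcases Int.units_eq_one_or (Equiv.Perm.sign s) with h | h <;> simp [h]
    rw [map_mul, hs, one_mul, map_prod]
    by_cases h0 : s j0 = i
    · rw [← Equiv.prod_comp s g]
      refine Finset.prod_le_prod (fun k _ => f.nonneg _) fun k _ => ?_
      by_cases hk : k = j0
      · subst hk
        simp [hg, h0]
      · have hne : s k ≠ i := fun h => hk (s.injective (h.trans h0.symm))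
        simp only [hg, if_neg hne, Matrix.updateRow_ne hne]
        exact hM _ _ hk
    · have hne : s.symm i ≠ j0 := fun h => h0 (by rw [← h]; simp)
      have hz : f ((M.updateRow i (Pi.single j0 1)) (s (s.symm i)) (s.symm i)) = 0 := by
        simp [Pi.single_eq_of_ne hne]
      rw [Finset.prod_eq_zero (Finset.mem_univ (s.symm i)) hz]
      exact Finset.prod_nonneg fun k _ => hg0 k
  calc f (∑ s : Equiv.Perm I, ((Equiv.Perm.sign s : ℤˣ) : ℤ) *
          ∏ k, (M.updateRow i (Pi.single j0 1)) (s k) k)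
      ≤ ∑ s : Equiv.Perm I, f (((Equiv.Perm.sign s : ℤˣ) : ℤ) *
          ∏ k, (M.updateRow i (Pi.single j0 1)) (s k) k) := f.sum_le _ _
    _ ≤ ∑ _s : Equiv.Perm I, ∏ k, g k := Finset.sum_le_sum fun s _ => hterm s
    _ = _ := by rw [Finset.sum_const, Finset.card_univ, Fintype.card_perm, hprod, nsmul_eq_mul]

theorem cof {I : Type} [Fintype I] [DecidableEq I] (Y : Matrix I I ℤ) (hY : Y.det ≠ 0) (j0 : I)
    (w a : I → ℤ) (ha : ∑ i, w i * a i = 1) (hw : ∀ j, j ≠ j0 → ∑ i, w i * Y i j = 0) :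
    ∃ la : ℤ, la ≠ 0 ∧ ∀ i, Y.adjugate j0 i = la * w i := by
  set t : ℤ := ∑ i, w i * Y i j0 with ht
  have h1 : w ᵥ* Y = Pi.single j0 t := by
    funext j
    by_cases hj : j = j0
    · subst hj; simp [Matrix.vecMul, dotProduct, ht]
    · rw [Pi.single_eq_of_ne hj]; simpa [Matrix.vecMul, dotProduct] using hw j hj
  have h2 : ∀ i, Y.det * w i = t * Y.adjugate j0 i := by
    intro i
    have h3 : w ᵥ* (Y * Y.adjugate) = (Pi.single j0 t : I → ℤ) ᵥ* Y.adjugate := by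
      rw [← Matrix.vecMul_vecMul, h1]
    rw [Matrix.mul_adjugate, Matrix.vecMul_smul, Matrix.vecMul_one, Matrix.single_vecMul] at h3
    have h4 := congrFun h3 i
    simpa using h4
  have h5 : Y.det = t * ∑ i, Y.adjugate j0 i * a i := by
    calc Y.det = Y.det * ∑ i, w i * a i := by rw [ha, mul_one]
      _ = ∑ i, (Y.det * w i) * a i := by
          rw [Finset.mul_sum]; exact Finset.sum_congr rfl fun i _ => by ring
      _ = _ := by
          rw [Finset.mul_sum]; exact Finset.sum_congr rfl fun i _ => by rw [h2 i]; ring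
  have ht0 : t ≠ 0 := fun h => hY (by rw [h5, h, zero_mul])
  refine ⟨∑ i, Y.adjugate j0 i * a i, fun h => hY (by rw [h5, h, mul_zero]), fun i => ?_⟩
  apply mul_left_cancel₀ ht0
  rw [← h2 i, ← mul_assoc, ← h5]

theorem low {V : Type} [Fintype V] (f : V → AbsoluteValue ℤ ℝ)
    (hf1 : ∀ v y, f v y ≤ |(y : ℝ)|) (hf2 : ∀ y, y ≠ 0 → 1 ≤ ∏ v, f v y)
    (v : V) (n : ℤ) (hn : n ≠ 0) (T : ℝ) (hT : |(n : ℝ)| ≤ T) :
    1 ≤ f v n * T ^ Fintype.card V := by
  classical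
  have h1 : (1 : ℝ) ≤ |(n : ℝ)| := by
    have := Int.one_le_abs hn
    exact_mod_cast this
  have hT1 : 1 ≤ T := h1.trans hT
  have h2 := hf2 n hn
  rw [← Finset.mul_prod_erase Finset.univ (fun v => f v n) (Finset.mem_univ v)] at h2
  refine h2.trans (mul_le_mul_of_nonneg_left ?_ ((f v).nonneg _))
  calc ∏ x ∈ Finset.univ.erase v, f x n ≤ ∏ _x ∈ Finset.univ.erase v, T :=
        Finset.prod_le_prod (fun x _ => (f x).nonneg _) fun x _ => (hf1 x n).trans hT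
    _ = T ^ (Finset.univ.erase v).card := by rw [Finset.prod_const]
    _ ≤ T ^ Fintype.card V := pow_le_pow_right₀ hT1 (Finset.card_le_univ _)

theorem small {I V : Type} [Fintype I] [DecidableEq I] [Fintype V] (f : V → AbsoluteValue ℤ ℝ)
    (hf1 : ∀ v y, f v y ≤ |(y : ℝ)|) (hf2 : ∀ y, y ≠ 0 → 1 ≤ ∏ v, f v y)
    (A B : V → Matrix I I ℤ) (hAB : ∀ v, A v * B v = 1) (w : I → ℤ) (K : ℝ)
    (hK : ∀ v, ∑ i, |(((w ᵥ* B v) i : ℤ) : ℝ)| ≤ K) (y : I → ℤ) (b : V → ℝ) (hb : ∀ v, 0 ≤ b v)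
    (hy : ∀ v i, (w ᵥ* B v) i ≠ 0 → f v ((A v *ᵥ y) i) ≤ b v)
    (hlt : K ^ Fintype.card V * ∏ v, b v < 1) : ∑ i, w i * y i = 0 := by
  by_contra hne
  have h1 := hf2 _ hne
  have h2 : ∀ v, f v (∑ i, w i * y i) ≤ K * b v := by
    intro v
    have hBA : B v * A v = 1 := mul_eq_one_comm.mp (hAB v)
    have e1 : ∑ i, w i * y i = ∑ i, (w ᵥ* B v) i * (A v *ᵥ y) i := by
      have e2 : (w ᵥ* B v) ⬝ᵥ (A v *ᵥ y) = w ⬝ᵥ y := by
        rw [← Matrix.dotProduct_mulVec, Matrix.mulVec_mulVec, hBA, Matrix.one_mulVec]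
      exact e2.symm
    rw [e1]
    calc f v (∑ i, (w ᵥ* B v) i * (A v *ᵥ y) i)
        ≤ ∑ i, f v ((w ᵥ* B v) i * (A v *ᵥ y) i) := (f v).sum_le _ _
      _ ≤ ∑ i, |(((w ᵥ* B v) i : ℤ) : ℝ)| * b v := by
          refine Finset.sum_le_sum fun i _ => ?_
          by_cases hi : (w ᵥ* B v) i = 0
          · simp [hi]
          · rw [map_mul]
            exact mul_le_mul (hf1 v _) (hy v i hi) ((f v).nonneg _) (abs_nonneg _)
      _ ≤ K * b v := by
          rw [← Finset.sum_mul]; exact mul_le_mul_of_nonneg_right (hK v) (hb v)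
  have h3 : ∏ v, f v (∑ i, w i * y i) ≤ ∏ v, (K * b v) :=
    Finset.prod_le_prod (fun v _ => (f v).nonneg _) fun v _ => h2 v
  rw [Finset.prod_mul_distrib, Finset.prod_const, Finset.card_univ] at h3
  linarith

theorem large {I V : Type} [Fintype I] [DecidableEq I] [Fintype V] (f : V → AbsoluteValue ℤ ℝ)
    (hf1 : ∀ v y, f v y ≤ |(y : ℝ)|) (hf2 : ∀ y, y ≠ 0 → 1 ≤ ∏ v, f v y)
    (A B : V → Matrix I I ℤ) (hAB : ∀ v, A v * B v = 1) (Y : Matrix I I ℤ) (hY : Y.det ≠ 0)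
    (j0 : I) (w a : I → ℤ) (ha : ∑ i, w i * a i = 1)
    (hw : ∀ j, j ≠ j0 → ∑ i, w i * Y i j = 0) (b : V → I → ℝ) (hb : ∀ v i, 0 ≤ b v i)
    (hYb : ∀ v i j, j ≠ j0 → f v ((A v * Y) i j) ≤ b v i) (ix : V → I)
    (hix : ∀ v, (w ᵥ* B v) (ix v) ≠ 0) (T : ℝ)
    (hT : ∀ v, |(((w ᵥ* B v) (ix v) : ℤ) : ℝ)| ≤ T) :
    1 ≤ ((Fintype.card I).factorial * T ^ Fintype.card V) ^ Fintype.card V *
      ∏ v, ∏ k ∈ Finset.univ.erase (ix v), b v k := by
  obtain ⟨la, hla, hu⟩ := cof Y hY j0 w a ha hw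
  have key : ∀ v, f v la ≤ ((Fintype.card I).factorial * T ^ Fintype.card V) *
      ∏ k ∈ Finset.univ.erase (ix v), b v k := by
    intro v
    have hadj : (A v).adjugate = (A v).det • B v := by
      calc (A v).adjugate = (A v).adjugate * (A v * B v) := by rw [hAB v, mul_one]
        _ = _ := by rw [← mul_assoc, Matrix.adjugate_mul, smul_mul_assoc, one_mul]
    have hdet : f v (A v).det = 1 := by
      have h1 : (A v).det * (B v).det = 1 := by rw [← Matrix.det_mul, hAB v, Matrix.det_one]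
      rcases Int.eq_one_or_neg_one_of_mul_eq_one h1 with h | h <;> simp [h]
    have e1 : (A v * Y).adjugate j0 (ix v) = (A v).det * (la * (w ᵥ* B v) (ix v)) := by
      rw [Matrix.adjugate_mul_distrib, hadj, Matrix.mul_apply]
      simp only [Matrix.vecMul, dotProduct, Matrix.smul_apply, smul_eq_mul, Finset.mul_sum]
      exact Finset.sum_congr rfl fun k _ => by rw [hu k]; ring
    have h2 := det_bd (f v) (A v * Y) (b v) (hb v) (ix v) j0 (hYb v)
    rw [e1, map_mul, map_mul, hdet, one_mul] at h2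
    have h3 := low f hf1 hf2 v _ (hix v) T (hT v)
    have hT0 : 0 ≤ T ^ Fintype.card V := pow_nonneg ((abs_nonneg _).trans (hT v)) _
    calc f v la ≤ f v la * (f v ((w ᵥ* B v) (ix v)) * T ^ Fintype.card V) :=
          le_mul_of_one_le_right ((f v).nonneg _) h3
      _ = (f v la * f v ((w ᵥ* B v) (ix v))) * T ^ Fintype.card V := by ring
      _ ≤ ((Fintype.card I).factorial * ∏ k ∈ Finset.univ.erase (ix v), b v k) *
            T ^ Fintype.card V := mul_le_mul_of_nonneg_right h2 hT0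
      _ = _ := by ring
  have h4 : ∏ v, f v la ≤ ∏ v, (((Fintype.card I).factorial * T ^ Fintype.card V) *
      ∏ k ∈ Finset.univ.erase (ix v), b v k) :=
    Finset.prod_le_prod (fun v _ => (f v).nonneg _) fun v _ => key v
  rw [Finset.prod_mul_distrib, Finset.prod_const, Finset.card_univ] at h4
  exact (hf2 la hla).trans h4

theorem prim {I : Type} [Fintype I] [DecidableEq I] (w0 : I → ℤ) (h0 : w0 ≠ 0) :
    ∃ (g : ℤ) (w a : I → ℤ), g ≠ 0 ∧ (∀ i, w0 i = g * w i) ∧ ∑ i, w i * a i = 1 := by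
  obtain ⟨i0, hi0⟩ := Function.ne_iff.mp h0
  obtain ⟨w, hw, hg⟩ := Finset.extract_gcd w0 (s := Finset.univ) ⟨i0, Finset.mem_univ _⟩
  obtain ⟨a, ha⟩ := Finset.gcd_eq_sum_mul Finset.univ w
  refine ⟨Finset.univ.gcd w0, w, a, fun h => hi0 ?_, fun i => hw i (Finset.mem_univ _), ?_⟩
  · have := hw i0 (Finset.mem_univ _)
    rw [h, zero_mul] at this
    exact this
  · rw [← ha, hg]

theorem ht (I V : Type) [Fintype I] [DecidableEq I] [Fintype V] (f : V → AbsoluteValue ℤ ℝ)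
    (hf1 : ∀ v y, f v y ≤ |(y : ℝ)|) (hf2 : ∀ y, y ≠ 0 → 1 ≤ ∏ v, f v y)
    (A B : V → Matrix I I ℤ) (hAB : ∀ v, A v * B v = 1) :
    ∃ W : Finset (I → ℤ), (∀ w ∈ W, w ≠ 0) ∧ ∀ (c : V → I → ℝ) (de : ℝ), 0 < de →
      ∑ v, ∑ i, c v i ≤ -de → ∃ de2 q0 : ℝ, 0 < de2 ∧
        ∀ (lq : ℝ) (Y : Matrix I I ℤ) (j0 : I) (w0 : I → ℤ), q0 ≤ lq → Y.det ≠ 0 →
          (∀ v i j, j ≠ j0 → f v ((A v * Y) i j) ≤ Real.exp (c v i * lq)) → w0 ≠ 0 →
          (∀ j, j ≠ j0 → ∑ i, w0 i * Y i j = 0) →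
          (∃ w ∈ W, ∀ j, j ≠ j0 → ∑ i, w i * Y i j = 0) ∨ de2 * lq ≤ Real.log ‖w0‖ := by
  classical
  have hrep : ∀ S : V → Finset I, ∃ u : I → ℤ, (∃ w : I → ℤ, w ≠ 0 ∧
      ∀ v i, (w ᵥ* B v) i ≠ 0 ↔ i ∈ S v) → u ≠ 0 ∧ ∀ v i, (u ᵥ* B v) i ≠ 0 ↔ i ∈ S v := by
    intro S
    by_cases h : ∃ w : I → ℤ, w ≠ 0 ∧ ∀ v i, (w ᵥ* B v) i ≠ 0 ↔ i ∈ S v
    · obtain ⟨w, hw⟩ := h
      exact ⟨w, fun _ => hw⟩
    · exact ⟨0, fun h' => absurd h' h⟩
  choose rep hrep using hrep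
  refine ⟨(Finset.univ.image rep).filter (· ≠ 0), fun w hw => (Finset.mem_filter.mp hw).2,
    fun c de hde hc => ?_⟩
  set d : ℕ := Fintype.card V with hd
  set n : ℕ := (Fintype.card I).factorial with hn
  set K1 : ℝ := 1 + ∑ S : V → Finset I, ∑ v, ∑ i, |(((rep S ᵥ* B v) i : ℤ) : ℝ)| with hK1
  set K2 : ℝ := 1 + ∑ v, ∑ i, ∑ k, |((B v k i : ℤ) : ℝ)| with hK2
  have hK1' : ∀ S v, ∑ i, |(((rep S ᵥ* B v) i : ℤ) : ℝ)| ≤ K1 := by
    intro S v
    have h1 : ∑ i, |(((rep S ᵥ* B v) i : ℤ) : ℝ)| ≤ ∑ v, ∑ i, |(((rep S ᵥ* B v) i : ℤ) : ℝ)| :=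
      Finset.single_le_sum (f := fun v => ∑ i, |(((rep S ᵥ* B v) i : ℤ) : ℝ)|)
        (fun v _ => by positivity) (Finset.mem_univ v)
    have h2 : ∑ v, ∑ i, |(((rep S ᵥ* B v) i : ℤ) : ℝ)| ≤
        ∑ S : V → Finset I, ∑ v, ∑ i, |(((rep S ᵥ* B v) i : ℤ) : ℝ)| :=
      Finset.single_le_sum (f := fun S => ∑ v, ∑ i, |(((rep S ᵥ* B v) i : ℤ) : ℝ)|)
        (fun v _ => by positivity) (Finset.mem_univ S)
    linarith
  have hK2' : ∀ v i, ∑ k, |((B v k i : ℤ) : ℝ)| ≤ K2 := by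
    intro v i
    have h1 : ∑ k, |((B v k i : ℤ) : ℝ)| ≤ ∑ i, ∑ k, |((B v k i : ℤ) : ℝ)| :=
      Finset.single_le_sum (f := fun i => ∑ k, |((B v k i : ℤ) : ℝ)|)
        (fun v _ => by positivity) (Finset.mem_univ i)
    have h2 : ∑ i, ∑ k, |((B v k i : ℤ) : ℝ)| ≤ ∑ v, ∑ i, ∑ k, |((B v k i : ℤ) : ℝ)| :=
      Finset.single_le_sum (f := fun v => ∑ i, ∑ k, |((B v k i : ℤ) : ℝ)|)
        (fun v _ => by positivity) (Finset.mem_univ v)
    linarith
  have hK1p : 1 ≤ K1 := by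
    have : 0 ≤ ∑ S : V → Finset I, ∑ v, ∑ i, |(((rep S ᵥ* B v) i : ℤ) : ℝ)| := by positivity
    linarith
  have hK2p : 1 ≤ K2 := by
    have : 0 ≤ ∑ v, ∑ i, ∑ k, |((B v k i : ℤ) : ℝ)| := by positivity
    linarith
  have hnp : (1 : ℝ) ≤ n := by exact_mod_cast Nat.factorial_pos _
  have hl1 : 0 ≤ Real.log K1 := Real.log_nonneg hK1p
  have hl2 : 0 ≤ Real.log K2 := Real.log_nonneg hK2p
  have hl3 : 0 ≤ Real.log n := Real.log_nonneg hnp
  set G : ℝ := 1 + d * Real.log K1 + d * Real.log n + d * (d * Real.log K2) with hG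
  have hGp : 0 < G := by positivity
  refine ⟨de / (4 * ((d : ℝ) * d + 1)), 4 * G / de, by positivity,
    fun lq Y j0 w0 hq hY hb hw0 hk => ?_⟩
  have hq' : 4 * G ≤ de * lq := by
    rw [div_le_iff₀ hde] at hq
    linarith
  have hlq : 0 ≤ lq := le_trans (by positivity) hq
  obtain ⟨g, w, a, hg, hgw, ha⟩ := prim w0 hw0
  have hw : ∀ j, j ≠ j0 → ∑ i, w i * Y i j = 0 := by
    intro j hj
    apply mul_left_cancel₀ hg
    rw [mul_zero, Finset.mul_sum, ← hk j hj]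
    exact Finset.sum_congr rfl fun i _ => by rw [hgw i]; ring
  have hwne : w ≠ 0 := by
    intro h
    simp [h] at ha
  set S : V → Finset I := fun v => Finset.univ.filter fun i => (w ᵥ* B v) i ≠ 0 with hS
  have hSm : ∀ v i, (w ᵥ* B v) i ≠ 0 ↔ i ∈ S v := by
    intro v i
    simp [hS]
  have hSne : ∀ v, (S v).Nonempty := by
    intro v
    have hBA : B v * A v = 1 := mul_eq_one_comm.mp (hAB v)
    have h1 : w ᵥ* B v ≠ 0 := by
      intro h
      apply hwne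
      have h2 : (w ᵥ* B v) ᵥ* A v = w := by rw [Matrix.vecMul_vecMul, hBA, Matrix.vecMul_one]
      rw [← h2, h, Matrix.zero_vecMul]
    obtain ⟨i, hi⟩ := Function.ne_iff.mp h1
    exact ⟨i, (hSm v i).mp hi⟩
  choose ix hix hmax using fun v => Finset.exists_max_image (S v) (c v) (hSne v)
  by_cases hs : ∑ v, c v (ix v) ≤ -(de / 2)
  · left
    obtain ⟨hu0, hu⟩ := hrep S ⟨w, hwne, hSm⟩
    refine ⟨rep S, Finset.mem_filter.mpr ⟨Finset.mem_image_of_mem _ (Finset.mem_univ S), hu0⟩,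
      fun j hj => ?_⟩
    refine small f hf1 hf2 A B hAB (rep S) K1 (hK1' S) (fun i => Y i j)
      (fun v => Real.exp (c v (ix v) * lq)) (fun v => (Real.exp_pos _).le) (fun v i hi => ?_) ?_
    · refine (hb v i j hj).trans (Real.exp_le_exp.mpr ?_)
      exact mul_le_mul_of_nonneg_right (hmax v i ((hu v i).mp hi)) hlq
    · rw [← Real.exp_sum, ← Finset.sum_mul, ← hd, ← Real.exp_log (show 0 < K1 by linarith),
        ← Real.exp_nat_mul, ← Real.exp_add, Real.exp_lt_one_iff]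
      have h1 := mul_le_mul_of_nonneg_right hs hlq
      have h2 : 0 ≤ (d : ℝ) * Real.log n := by positivity
      have h3 : 0 ≤ (d : ℝ) * (d * Real.log K2) := by positivity
      have h4 : 0 ≤ (d : ℝ) * Real.log K1 := by positivity
      linarith
  · right
    have hs' : -(de / 2) ≤ ∑ v, c v (ix v) := (not_le.mp hs).le
    have hwH : ∀ k, |((w k : ℤ) : ℝ)| ≤ ‖w0‖ := by
      intro k
      have h1 : ‖w0 k‖ ≤ ‖w0‖ := norm_le_pi_norm w0 k
      rw [Int.norm_eq_abs, hgw k, Int.cast_mul, abs_mul] at h1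
      have h2 : (1 : ℝ) ≤ |(g : ℝ)| := by exact_mod_cast Int.one_le_abs hg
      exact (le_mul_of_one_le_left (abs_nonneg _) h2).trans h1
    have hH : (1 : ℝ) ≤ ‖w0‖ := by
      obtain ⟨k, hk0⟩ := Function.ne_iff.mp hwne
      have h2 : (1 : ℝ) ≤ |((w k : ℤ) : ℝ)| := by exact_mod_cast Int.one_le_abs hk0
      exact h2.trans (hwH k)
    have hT : ∀ v, |(((w ᵥ* B v) (ix v) : ℤ) : ℝ)| ≤ ‖w0‖ * K2 := by
      intro v
      have e1 : (((w ᵥ* B v) (ix v) : ℤ) : ℝ) = ∑ k, (w k : ℝ) * (B v k (ix v) : ℝ) := by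
        simp [Matrix.vecMul, dotProduct]
      rw [e1]
      calc |∑ k, (w k : ℝ) * (B v k (ix v) : ℝ)| ≤ ∑ k, |(w k : ℝ) * (B v k (ix v) : ℝ)| :=
            Finset.abs_sum_le_sum_abs _ _
        _ ≤ ∑ k, ‖w0‖ * |(B v k (ix v) : ℝ)| := Finset.sum_le_sum fun k _ => by
            rw [abs_mul]; exact mul_le_mul_of_nonneg_right (hwH k) (abs_nonneg _)
        _ ≤ ‖w0‖ * K2 := by
            rw [← Finset.mul_sum]
            exact mul_le_mul_of_nonneg_left (hK2' v _) (norm_nonneg _)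
    have hL := large f hf1 hf2 A B hAB Y hY j0 w a ha hw (fun v i => Real.exp (c v i * lq))
      (fun v i => (Real.exp_pos _).le) hb ix (fun v => (hSm v _).mpr (hix v)) _ hT
    have e2 : ∏ v, ∏ k ∈ Finset.univ.erase (ix v), Real.exp (c v k * lq) =
        Real.exp ((∑ v, ∑ i, c v i - ∑ v, c v (ix v)) * lq) := by
      rw [← Finset.sum_sub_distrib, Finset.sum_mul, Real.exp_sum]
      refine Finset.prod_congr rfl fun v _ => ?_
      rw [← Real.exp_sum, ← Finset.sum_mul,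
        ← Finset.add_sum_erase Finset.univ (c v) (Finset.mem_univ (ix v)), add_sub_cancel_left]
    rw [e2, ← hd, ← hn] at hL
    have hHp : 0 < ‖w0‖ := by linarith
    have hKp : 0 < K2 := by linarith
    have hnp' : (0 : ℝ) < n := by linarith
    have hL2 := Real.log_nonneg hL
    rw [Real.log_mul (by positivity) (Real.exp_pos _).ne', Real.log_exp, Real.log_pow,
      Real.log_mul hnp'.ne' (by positivity), Real.log_pow, Real.log_mul hHp.ne' hKp.ne'] at hL2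
    have h1 : (∑ v, ∑ i, c v i - ∑ v, c v (ix v)) * lq ≤ -(de / 2) * lq :=
      mul_le_mul_of_nonneg_right (by linarith) hlq
    have h4 : 0 ≤ (d : ℝ) * Real.log K1 := by positivity
    have h5 : 0 ≤ Real.log ‖w0‖ := Real.log_nonneg hH
    rw [div_mul_eq_mul_div, div_le_iff₀ (by positivity)]
    nlinarith

end US24
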